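import Pool.Agent.H31.PC.Targets
import Pool.Agent.H31.PC.Alg

/-! Board pc_modules (MP_6e60ff_nt), module FIT. -/

set_option autoImplicit false

namespace Pool.Agent.H35.PC

open Finset MvPolynomial Pool.Agent.H31.PC Pool.Agent.H31.RZ

theorem MM_le {K : ℕ} {a b s s' : ℤ} (ha : |a| ≤ K) (hb : |b| ≤ K) (hs : |s| ≤ K)
    (hs' : |s'| ≤ K) (i j : Fin 3) : |MM a b s s' i j| ≤ ((K + 1 : ℕ) : ℤ) := by
  have hK : (0 : ℤ) ≤ K := Int.natCast_nonneg K
  rw [MM]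
  push_cast
  fin_cases i <;> fin_cases j <;> simp <;> omega

theorem MI_le {K : ℕ} {a b s s' : ℤ} (ha : |a| ≤ K) (hb : |b| ≤ K) (hs : |s| ≤ K)
    (hs' : |s'| ≤ K) (h : (s' - s) ^ 2 = 1) (i j : Fin 3) :
    |MI a b s s' i j| ≤ (((K + 1) ^ 2 : ℕ) : ℤ) := by
  have hK : (0 : ℤ) ≤ K := Int.natCast_nonneg K
  have h1 : |s' - s| = 1 := by
    have h2 : |s' - s| ^ 2 = 1 := by rw [sq_abs, h]
    have h3 : 0 ≤ |s' - s| := abs_nonneg _
    nlinarith
  have e1 : |s * a| ≤ K * K := by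
    rw [abs_mul]
    exact mul_le_mul hs ha (abs_nonneg _) hK
  have e2 : |s' * a| ≤ K * K := by
    rw [abs_mul]
    exact mul_le_mul hs' ha (abs_nonneg _) hK
  have e3 : |s * a - b| ≤ K * K + K := (abs_sub _ _).trans (add_le_add e1 hb)
  have e4 : |b - s' * a| ≤ K + K * K := (abs_sub _ _).trans (add_le_add hb e2)
  have m : ∀ t : ℤ, |(s' - s) * t| = |t| := fun t => by rw [abs_mul, h1, one_mul]
  have m1 := m s
  have m2 := m s'
  have m3 := m (s * a - b)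
  have m4 := m (b - s' * a)
  rw [MI]
  push_cast
  have k1 : |s| ≤ ((K : ℤ) + 1) ^ 2 := by nlinarith
  have k2 : |s'| ≤ ((K : ℤ) + 1) ^ 2 := by nlinarith
  have k3 : |s * a - b| ≤ ((K : ℤ) + 1) ^ 2 := by nlinarith
  have k4 : |b - s' * a| ≤ ((K : ℤ) + 1) ^ 2 := by nlinarith
  have k5 : (1 : ℤ) ≤ ((K : ℤ) + 1) ^ 2 := by nlinarith
  fin_cases i <;> fin_cases j
  · change |-((s' - s) * s)| ≤ _
    rw [abs_neg, m1]
    exact k1
  · change |s' - s| ≤ _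
    rw [h1]
    exact k5
  · change |(s' - s) * (s * a - b)| ≤ _
    rw [m3]
    exact k3
  · change |(s' - s) * s'| ≤ _
    rw [m2]
    exact k2
  · change |-(s' - s)| ≤ _
    rw [abs_neg, h1]
    exact k5
  · change |(s' - s) * (b - s' * a)| ≤ _
    rw [m4]
    exact k4
  · change |(0 : ℤ)| ≤ _
    rw [abs_zero]
    omega
  · change |(0 : ℤ)| ≤ _
    rw [abs_zero]
    omega
  · change |(1 : ℤ)| ≤ _
    rw [abs_one]
    exact k5

theorem sub_mem {d R : ℕ} {f g : MvPolynomial (Fin 3) ℤ} (hf : f ∈ FF 2 d R)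
    (hg : g ∈ FF 2 d R) : f - g ∈ FF 2 d (2 * R) := by
  obtain ⟨h1, h2⟩ := mem_FF.1 hf
  obtain ⟨h3, h4⟩ := mem_FF.1 hg
  rw [mem_FF]
  refine ⟨h1.sub h3, fun μ => ?_⟩
  rw [coeff_sub]
  push_cast
  have := abs_sub (f.coeff μ) (g.coeff μ)
  have := h2 μ
  have := h4 μ
  omega

theorem pf_FIT (h1 : T_TR) (h2 : T_DIV) : T_FIT := by
  intro d K hd
  obtain ⟨e, rfl⟩ : ∃ e, d = e + 2 := ⟨d - 2, by omega⟩
  have hde : e + 2 - 2 = e := by omega
  rw [hde]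
  refine ⟨NN 2 e * (3 * (K + 1) ^ 2) ^ e * (NN 2 (e + 2) * (3 * (K + 1)) ^ (e + 2) * 2) + 1,
    by omega, ?_⟩
  intro R a b s s' ha hb hs hs' hss x φ φ' hy0 hy1
  classical
  rcases Set.eq_empty_or_nonempty ({f : MvPolynomial (Fin 3) ℤ | f ∈ FF 2 (e + 2) R ∧
    eval x f = 0 ∧ ln a b s f = φ ∧ ln a b s' f = φ'} : Set _) with hemp | ⟨f0, hf0⟩
  · rw [hemp, Set.ncard_empty]
    exact Nat.zero_le _
  obtain ⟨hf01, hf02, hf03, hf04⟩ := hf0
  have hxy : (MM a b s s').mulVec ((MI a b s s').mulVec x) = x := by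
    rw [Matrix.mulVec_mulVec, MM_MI hss, Matrix.one_mulVec]
  have key : ∀ f : MvPolynomial (Fin 3) ℤ, f ∈ FF 2 (e + 2) R → eval x f = 0 →
      ln a b s f = φ → ln a b s' f = φ' → ∃ h' ∈ Lam e ((NN 2 e * (3 * (K + 1) ^ 2) ^ e *
        (NN 2 (e + 2) * (3 * (K + 1)) ^ (e + 2) * 2) + 1) * R) x,
      f = f0 + tr (MI a b s s') (X 0 * (X 1 * tr (MM a b s s') h')) := by
    intro f hf1 hf2 hf3 hf4
    have hP := h1 (e + 2) (K + 1) (2 * R) (MM a b s s') (f - f0) (MM_le ha hb hs hs')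
      (sub_mem hf1 hf01)
    set P := tr (MM a b s s') (f - f0) with hPdef
    have hPh : P.IsHomogeneous (e + 2) := (mem_FF.1 hP).1
    have hr0 : r0 P = 0 := by rw [hPdef, r0_tr, map_sub, hf3, hf03, sub_self]
    have hr1 : r1 P = 0 := by rw [hPdef, r1_tr, map_sub, hf4, hf04, sub_self]
    obtain ⟨h, hh, hPh0⟩ := h2 (e + 1) _ P 0 hP (coeff_of_r0 hPh hr0)
    obtain ⟨g, hg, hhg⟩ := h2 e _ h 1 hh (by
      intro μ hμ
      have e1 : P.coeff (Finsupp.single 0 1 + μ) = h.coeff μ := by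
        rw [hPh0, coeff_X_mul]
      rw [← e1]
      apply coeff_of_r1 hPh hr1
      rw [Finsupp.add_apply, hμ, Finsupp.single_eq_of_ne (by decide), add_zero])
    have hevP : eval ((MI a b s s').mulVec x) P = 0 := by
      rw [hPdef, eval_tr, hxy, map_sub, hf2, hf02, sub_self]
    have hevg : eval ((MI a b s s').mulVec x) g = 0 := by
      rw [hPh0, hhg, map_mul, map_mul, eval_X, eval_X] at hevP
      rcases mul_eq_zero.1 hevP with h3 | h3
      · exact absurd h3 hy0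
      · rcases mul_eq_zero.1 h3 with h4 | h4
        · exact absurd h4 hy1
        · exact h4
    refine ⟨tr (MI a b s s') g, ?_, ?_⟩
    · rw [mem_Lam]
      refine ⟨?_, by rw [eval_tr, hevg]⟩
      have h5 := h1 e ((K + 1) ^ 2) _ (MI a b s s') g (MI_le ha hb hs hs' hss) hg
      obtain ⟨h6, h7⟩ := mem_FF.1 h5
      refine ⟨h6, fun μ => (h7 μ).trans ?_⟩
      have h8 : NN 2 e * (3 * (K + 1) ^ 2) ^ e *
          (NN 2 (e + 2) * (3 * (K + 1)) ^ (e + 2) * (2 * R)) ≤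
          (NN 2 e * (3 * (K + 1) ^ 2) ^ e *
            (NN 2 (e + 2) * (3 * (K + 1)) ^ (e + 2) * 2) + 1) * R := by
        rw [add_mul, one_mul]
        have : NN 2 e * (3 * (K + 1) ^ 2) ^ e *
          (NN 2 (e + 2) * (3 * (K + 1)) ^ (e + 2) * (2 * R)) =
          NN 2 e * (3 * (K + 1) ^ 2) ^ e *
            (NN 2 (e + 2) * (3 * (K + 1)) ^ (e + 2) * 2) * R := by ring
        rw [this]
        exact Nat.le_add_right _ _
      exact_mod_cast h8
    · rw [tr_tr, MI_MM hss, tr_one, ← hhg, ← hPh0, hPdef, tr_tr, MM_MI hss, tr_one]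
      ring
  set Λ := Lam e ((NN 2 e * (3 * (K + 1) ^ 2) ^ e *
        (NN 2 (e + 2) * (3 * (K + 1)) ^ (e + 2) * 2) + 1) * R) x with hΛ
  have hsub : ({f : MvPolynomial (Fin 3) ℤ | f ∈ FF 2 (e + 2) R ∧ eval x f = 0 ∧
      ln a b s f = φ ∧ ln a b s' f = φ'} : Set _) ⊆ ((Λ.image fun h' =>
        f0 + tr (MI a b s s') (X 0 * (X 1 * tr (MM a b s s') h')) :
          Finset (MvPolynomial (Fin 3) ℤ)) : Set (MvPolynomial (Fin 3) ℤ)) := by
    rintro f ⟨hf1, hf2, hf3, hf4⟩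
    obtain ⟨h', hh', hf⟩ := key f hf1 hf2 hf3 hf4
    rw [Finset.mem_coe, Finset.mem_image]
    exact ⟨h', hh', hf.symm⟩
  calc _ ≤ _ := Set.ncard_le_ncard hsub (Finset.finite_toSet _)
    _ = _ := Set.ncard_coe_finset _
    _ ≤ _ := Finset.card_image_le

end Pool.Agent.H35.PC
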